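import Mathlib
import Pool.Agent.Lib.MP_2823fe_lc.Bridge

/-! Coding binary sequences by the classes of partitions in a cube. -/

set_option autoImplicit false

namespace Pool.Agent.Lib.MP_2823fe_lc

open MeasureTheory

/-- The set of `n` such that the `n`-th classes of `A` and `B` differ. -/
def Dif (A B : Einf) : Set ℕ := {n | ∃ k, code A (n, k) ≠ code B (n, k)}

theorem code_meas (n : ℕ) : MeasurableSet {p : Einf × Einf | n ∈ Dif p.1 p.2} := by
  have e : {p : Einf × Einf | n ∈ Dif p.1 p.2} =
      ⋃ k, {p : Einf × Einf | code p.1 (n, k) = code p.2 (n, k)}ᶜ := by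
    ext p
    simp [Dif]
  rw [e]
  refine MeasurableSet.iUnion fun k => MeasurableSet.compl ?_
  have hc : Continuous fun A => code A (n, k) := (continuous_apply (n, k)).comp continuous_code
  exact (isClosed_eq (hc.comp continuous_fst) (hc.comp continuous_snd)).measurableSet

theorem analytic_dif (J : Set ℕ → Prop) (hJ : AnalyticSet {u : ℕ → Bool | J {n | u n = true}}) :
    AnalyticSet {p : Einf × Einf | J (Dif p.1 p.2)} := by
  classical
  have : PolishSpace ((Einf × Einf) × (ℕ → Bool)) := {}
  let S : Set ((Einf × Einf) × (ℕ → Bool)) := {q | ∀ n, q.2 n = true ↔ n ∈ Dif q.1.1 q.1.2}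
  let T : Set ((Einf × Einf) × (ℕ → Bool)) := Prod.snd ⁻¹' {u : ℕ → Bool | J {n | u n = true}}
  have hS : MeasurableSet S := by
    have e : S = ⋂ n, (({q : (Einf × Einf) × (ℕ → Bool) | q.2 n = true} ∩
        Prod.fst ⁻¹' {p : Einf × Einf | n ∈ Dif p.1 p.2}) ∪
        ({q : (Einf × Einf) × (ℕ → Bool) | q.2 n = true}ᶜ ∩
        (Prod.fst ⁻¹' {p : Einf × Einf | n ∈ Dif p.1 p.2})ᶜ)) := by
      ext q
      simp only [S, Set.mem_ofPred_eq, Set.mem_iInter, Set.mem_union, Set.mem_inter_iff,
        Set.mem_compl_iff, Set.mem_preimage]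
      exact forall_congr' fun n => by tauto
    rw [e]
    refine MeasurableSet.iInter fun n => ?_
    have h1 : MeasurableSet {q : (Einf × Einf) × (ℕ → Bool) | q.2 n = true} :=
      (isClosed_eq ((continuous_apply n).comp continuous_snd) continuous_const).measurableSet
    have h2 : MeasurableSet (Prod.fst ⁻¹' {p : Einf × Einf | n ∈ Dif p.1 p.2} :
        Set ((Einf × Einf) × (ℕ → Bool))) := measurable_fst (code_meas n)
    exact (h1.inter h2).union (h1.compl.inter h2.compl)
  have hT : AnalyticSet T := hJ.preimage continuous_snd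
  have hI : AnalyticSet (⋂ b : ℕ, if b = 0 then S else T) :=
    AnalyticSet.iInter fun b => by
      split_ifs
      · exact hS.analyticSet
      · exact hT
  have e : {p : Einf × Einf | J (Dif p.1 p.2)} =
      Prod.fst '' (⋂ b : ℕ, if b = 0 then S else T) := by
    ext p
    simp only [Set.mem_ofPred_eq, Set.mem_image, Set.mem_iInter]
    constructor
    · intro h
      refine ⟨(p, fun n => decide (n ∈ Dif p.1 p.2)), fun b => ?_, rfl⟩
      split_ifs
      · intro n
        simp
      · change J {n | decide (n ∈ Dif p.1 p.2) = true}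
        simpa using h
    · rintro ⟨q, hq, rfl⟩
      have h0 : q ∈ S := by simpa using hq 0
      have h1 : q ∈ T := by simpa using hq 1
      have h2 : {n | q.2 n = true} = Dif q.1.1 q.1.2 := Set.ext h0
      rw [← h2]
      exact h1
  rw [e]
  exact hI.image_of_continuous continuous_fst

/-- The index of the class of `m`. -/
noncomputable def code_ix (A : Einf) (m : ℕ) : ℕ := (exists_mu A (rho_idem A m)).choose

theorem code_mu_ix (A : Einf) (m : ℕ) : mu A (code_ix A m) = rho A m :=
  (exists_mu A (rho_idem A m)).choose_spec.2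

theorem code_ix_mu (A : Einf) (n : ℕ) : code_ix A (mu A n) = n :=
  (mu_strictMono A).injective (by rw [code_mu_ix, rho_mu])

/-- One step of the retraction on indices. -/
def code_h (n0 j : ℕ) (b : Bool) : ℕ :=
  if j ≤ n0 ∨ (j - n0) % 2 = 0 then j else if b = true then j - 1 else n0

/-- The retraction on indices. -/
def code_g (n0 : ℕ) (u : ℕ → Bool) (j : ℕ) : ℕ := code_h n0 j (u (n0 + (j - n0) / 2))

/-- The surviving indices. -/
def code_e (n0 n : ℕ) : ℕ := n + (n - n0)

theorem code_g_le (n0 : ℕ) (u : ℕ → Bool) (j : ℕ) : code_g n0 u j ≤ j := by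
  unfold code_g code_h
  split_ifs <;> omega

theorem code_g_fix (n0 : ℕ) (u : ℕ → Bool) {j : ℕ} (h : j ≤ n0 ∨ (j - n0) % 2 = 0) :
    code_g n0 u j = j := by
  unfold code_g code_h
  rw [if_pos h]

theorem code_g_good (n0 : ℕ) (u : ℕ → Bool) (j : ℕ) :
    code_g n0 u j ≤ n0 ∨ (code_g n0 u j - n0) % 2 = 0 := by
  unfold code_g code_h
  split_ifs <;> omega

theorem code_g_e (n0 : ℕ) (u : ℕ → Bool) (n : ℕ) : code_g n0 u (code_e n0 n) = code_e n0 n :=
  code_g_fix n0 u (by unfold code_e; omega)

theorem code_exists_e (n0 : ℕ) {j : ℕ} (h : j ≤ n0 ∨ (j - n0) % 2 = 0) :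
    ∃ n, code_e n0 n = j :=
  ⟨j - (j - n0) / 2, by unfold code_e; omega⟩

theorem code_e_mono (n0 : ℕ) : StrictMono (code_e n0) := by
  intro a b hab
  unfold code_e
  omega

/-- The least-element map of the coarser partition. -/
noncomputable def code_R (A : Einf) (n0 : ℕ) (u : ℕ → Bool) : Ret where
  f := fun m => mu A (code_g n0 u (code_ix A m))
  le := fun m => by
    refine le_trans ((mu_strictMono A).monotone (code_g_le n0 u _)) ?_
    rw [code_mu_ix]
    exact rho_le A m
  idem := fun m => by rw [code_ix_mu, code_g_fix n0 u (code_g_good n0 u _)]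
  inf := fun n => ⟨mu A (code_e n0 n),
    ((mu_strictMono A).comp (code_e_mono n0)).id_le n, by rw [code_ix_mu, code_g_e]⟩

theorem code_rho (A : Einf) (n0 : ℕ) (u : ℕ → Bool) (m : ℕ) :
    rho (ofRet (code_R A n0 u)) m = mu A (code_g n0 u (code_ix A m)) := rho_ofRet _ m

theorem code_mu (A : Einf) (n0 : ℕ) (u : ℕ → Bool) (n : ℕ) :
    mu (ofRet (code_R A n0 u)) n = mu A (code_e n0 n) := by
  have h : mu (ofRet (code_R A n0 u)) = mu A ∘ code_e n0 := by
    refine ((mu_strictMono _).range_inj ((mu_strictMono A).comp (code_e_mono n0))).1 ?_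
    ext m
    constructor
    · rintro ⟨k, rfl⟩
      have h1 := rho_mu (ofRet (code_R A n0 u)) k
      rw [code_rho] at h1
      obtain ⟨k', hk'⟩ := code_exists_e n0
        (code_g_good n0 u (code_ix A (mu (ofRet (code_R A n0 u)) k)))
      exact ⟨k', by rw [Function.comp, hk', h1]⟩
    · rintro ⟨k, rfl⟩
      obtain ⟨k', -, hk'⟩ := exists_mu (ofRet (code_R A n0 u)) (m := mu A (code_e n0 k))
        (by rw [code_rho, code_ix_mu, code_g_e])
      exact ⟨k', hk'⟩
  rw [h]
  rfl

theorem code_code (A : Einf) (n0 : ℕ) (u : ℕ → Bool) (n k : ℕ) :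
    code (ofRet (code_R A n0 u)) (n, k) = decide (code_g n0 u (code_ix A k) = code_e n0 n) := by
  unfold code
  rw [decide_eq_decide, rel_iff, rho_mu, code_rho, code_mu]
  exact (mu_strictMono A).injective.eq_iff

theorem code_g_eq (n0 : ℕ) (u : ℕ → Bool) {n : ℕ} (hn : n0 < n) (j : ℕ) :
    code_g n0 u j = code_e n0 n ↔ j = code_e n0 n ∨ (j = code_e n0 n + 1 ∧ u n = true) := by
  by_cases hj : j = code_e n0 n + 1
  · have h1 : n0 + (j - n0) / 2 = n := by unfold code_e at hj; omega
    unfold code_g code_h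
    rw [h1]
    unfold code_e at hj ⊢
    split_ifs with h2 h3
    · omega
    · simp only [h3, and_true]
      omega
    · constructor
      · omega
      · rintro (h | h)
        · omega
        · exact absurd h.2 h3
  · simp only [hj, false_and, or_false]
    unfold code_g code_h
    unfold code_e at hj ⊢
    split_ifs <;> omega

theorem exists_code (A : Einf) (n0 : ℕ) : ∃ F : (ℕ → Bool) → Einf, Measurable F ∧
    (∀ u, F u ∈ cube (restr A n0) A) ∧ ∀ u v n, n0 < n → (n ∈ Dif (F u) (F v) ↔ u n ≠ v n) := by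
  refine ⟨fun u => ofRet (code_R A n0 u), Continuous.measurable ?_, fun u => ⟨?_, n0, ?_⟩, ?_⟩
  · refine continuous_induced_rng.2 (continuous_pi fun p => ?_)
    obtain ⟨n, k⟩ := p
    simp only [Function.comp, code_code]
    exact (continuous_of_discreteTopology
      (f := fun b : Bool => decide (code_h n0 (code_ix A k) b = code_e n0 n))).comp
      (continuous_apply _)
  · intro i j hij
    have h1 : code_ix A i = code_ix A j :=
      (mu_strictMono A).injective (by rw [code_mu_ix, code_mu_ix, (rel_iff A i j).1 hij])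
    rw [rel_iff, code_rho, code_rho, h1]
  · have h0 : code_e n0 n0 = n0 := by unfold code_e; omega
    rw [restr_eq_iff, code_mu, h0]
    refine ⟨rfl, fun m hm => ?_⟩
    have h1 : code_ix A m < n0 := (mu_strictMono A).lt_iff_lt.1 (by
      rw [code_mu_ix]
      exact lt_of_le_of_lt (rho_le A m) hm)
    rw [code_rho, code_g_fix n0 u (Or.inl h1.le), code_mu_ix]
  · intro u v n hn
    simp only [Dif, Set.mem_ofPred_eq, code_code, ne_eq, decide_eq_decide, code_g_eq n0 _ hn]
    constructor
    · rintro ⟨k, hk⟩ h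
      exact hk (by rw [h])
    · intro h
      refine ⟨mu A (code_e n0 n + 1), ?_⟩
      rw [code_ix_mu]
      intro h1
      apply h
      have h2 : u n = true ↔ v n = true := by simpa using h1
      exact Bool.eq_iff_iff.2 h2

end Pool.Agent.Lib.MP_2823fe_lc
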