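import Mathlib
import Pool.Agent.Lib.MP_2823fe_lc.Core

/-! Cubes, amalgamation and fusion. -/

set_option autoImplicit false

namespace Pool.Agent.Lib.MP_2823fe_lc

/-- The partitions coarser than `B` that agree with `T` up to `L`. -/
def Cb (T : Ret) (L : ℕ) (B : Ret) : Set Ret := {A | Le A B ∧ Agr A T (L + 1)}

theorem Le.fix {A B : Ret} (h : Le A B) {v : ℕ} (hv : A.f v = v) : B.f v = v := by
  have h1 := h v
  have h2 := A.le (B.f v)
  have h3 := B.le v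
  omega

theorem cb_self {A B : Ret} (h : Le A B) (L : ℕ) : A ∈ Cb A L B := ⟨h, Agr.rfl _ _⟩

theorem cb_congr {T T' : Ret} {L : ℕ} (h : Agr T T' (L + 1)) (B : Ret) : Cb T L B = Cb T' L B :=
  Set.ext fun _ => ⟨fun k => ⟨k.1, k.2.trans h⟩, fun k => ⟨k.1, k.2.trans h.symm⟩⟩

theorem cb_mono (T : Ret) (L : ℕ) {B B' : Ret} (h : Le B' B) : Cb T L B' ⊆ Cb T L B :=
  fun _ k => ⟨k.1.trans h, k.2⟩

theorem cb_fix {A T B : Ret} {L : ℕ} (h : A ∈ Cb T L B) (hT : T.f L = L) : A.f L = L :=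
  (h.2 L L.lt_succ_self).trans hT

theorem amalg {B B' : Ret} (h : Le B' B) (p : ℕ) :
    ∃ D, Le D B ∧ Agr D B (p + 1) ∧ Cb B' p D ⊆ Cb B' p B' := by
  let g : ℕ → ℕ := fun m => if B.f m ≤ p then B.f m else B'.f m
  have g1 : ∀ m, B.f m ≤ p → g m = B.f m := fun m k => if_pos k
  have g2 : ∀ m, ¬ B.f m ≤ p → g m = B'.f m := fun m k => if_neg k
  have g3 : ∀ v, B'.f v = v → g v = v := fun v k => by
    by_cases c : B.f v ≤ p
    · rw [g1 v c, h.fix k]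
    · rw [g2 v c, k]
  refine ⟨⟨g, fun m => ?_, fun m => ?_, fun n => ?_⟩, fun m => ?_, fun m hm => ?_, ?_⟩
  · by_cases c : B.f m ≤ p
    · exact g1 m c ▸ B.le m
    · exact g2 m c ▸ B'.le m
  · by_cases c : B.f m ≤ p
    · rw [g1 m c, g1 _ ((B.idem m).symm ▸ c), B.idem]
    · rw [g2 m c, g3 _ (B'.idem m)]
  · obtain ⟨q, h1, h2⟩ := B'.inf n
    exact ⟨q, h1, g3 q h2⟩
  · change g (B.f m) = g m
    simp only [g, B.idem, h m]
  · exact g1 m ((B.le m).trans (Nat.lt_succ_iff.1 hm))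
  · rintro A ⟨h1, h2⟩
    refine ⟨fun m => ?_, h2⟩
    have h3 : A.f (g m) = A.f m := h1 m
    by_cases c : B.f m ≤ p
    · have h4 := B'.le (B.f m)
      rw [g1 m c, h2 _ (Nat.lt_succ_of_le c), h m] at h3
      rw [h m] at h4
      rw [h2 _ (by omega), B'.idem, h3]
    · rwa [g2 m c] at h3

theorem fuse (Q : ℕ → Set Ret → Prop) (mono : ∀ L S S', S' ⊆ S → Q L S → Q L S') (T₀ : Ret)
    (L₀ : ℕ) (dense : ∀ T ∈ Cb T₀ L₀ T₀, ∀ L, L₀ ≤ L → T.f L = L →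
      ∃ B ∈ Cb T L T, Q L (Cb T L B)) :
    ∃ D ∈ Cb T₀ L₀ T₀, ∀ A ∈ Cb T₀ L₀ D, ∀ L, L₀ ≤ L → A.f L = L → Q L (Cb A L D) := by
  classical
  have hfin : ∀ (B : Ret) (p : ℕ), L₀ ≤ p → ∀ S : Finset (Fin (p + 1) → Fin (p + 1)),
      ∃ D, Le D B ∧ Agr D B (p + 1) ∧ ∀ q ∈ S, ∀ A ∈ Cb T₀ L₀ T₀, Le A D → A.f p = p →
        (∀ m : Fin (p + 1), A.f m = q m) → Q p (Cb A p D) := by
    intro B p hp S
    induction S using Finset.induction_on with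
    | empty => exact ⟨B, Le.rfl _, Agr.rfl _ _, by simp⟩
    | insert q S hq ih =>
      obtain ⟨D, h1, h2, h3⟩ := ih
      by_cases hex : ∃ T ∈ Cb T₀ L₀ T₀, Le T D ∧ T.f p = p ∧ ∀ m : Fin (p + 1), T.f m = q m
      · obtain ⟨T, k1, k2, k3, k4⟩ := hex
        obtain ⟨B', k5, k6⟩ := dense T k1 p hp k3
        obtain ⟨D', k7, k8, k9⟩ := amalg (k5.1.trans k2) p
        refine ⟨D', k7.trans h1, k8.trans h2, fun q' hq' A a1 a2 a3 a4 => ?_⟩
        rcases Finset.mem_insert.1 hq' with rfl | hq'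
        · have : Agr A T (p + 1) := fun m hm => (a4 ⟨m, hm⟩).trans (k4 ⟨m, hm⟩).symm
          rw [← cb_congr k5.2] at k6
          rw [cb_congr (this.trans k5.2.symm)]
          exact mono _ _ _ k9 k6
        · exact mono _ _ _ (cb_mono _ _ k7) (h3 q' hq' A a1 (a2.trans k7) a3 a4)
      · refine ⟨D, h1, h2, fun q' hq' A a1 a2 a3 a4 => ?_⟩
        rcases Finset.mem_insert.1 hq' with rfl | hq'
        · exact (hex ⟨A, a1, a2, a3, a4⟩).elim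
        · exact h3 q' hq' A a1 a2 a3 a4
  have hstep : ∀ (_ : ℕ) (s : Ret × ℕ), ∃ s' : Ret × ℕ, Le s'.1 s.1 ∧ Agr s'.1 s.1 s'.2 ∧
      (∃ p, s.2 ≤ p ∧ p < s'.2 ∧ s'.1.f p = p) ∧ ∀ L, L₀ ≤ L → s.2 ≤ L → L < s'.2 →
        ∀ A ∈ Cb T₀ L₀ T₀, Le A s'.1 → A.f L = L → Q L (Cb A L s'.1) := by
    intro _ s
    have hp := Nat.find_spec (s.1.inf (max L₀ s.2))
    have hm := fun L => Nat.find_min' (s.1.inf (max L₀ s.2)) (m := L)
    generalize Nat.find (s.1.inf (max L₀ s.2)) = p at hp hm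
    obtain ⟨D, h1, h2, h3⟩ := hfin s.1 p ((le_max_left _ _).trans hp.1) Finset.univ
    refine ⟨(D, p + 1), h1, h2, ⟨p, (le_max_right _ _).trans hp.1, p.lt_succ_self,
      (h2 p p.lt_succ_self).trans hp.2⟩, fun L l1 l2 l3 A a1 a2 a3 => ?_⟩
    obtain rfl : L = p :=
      le_antisymm (Nat.lt_succ_iff.1 l3) (hm L ⟨max_le l1 l2, (a2.trans h1).fix a3⟩)
    exact h3 (fun m => ⟨A.f m, (A.le m).trans_lt m.2⟩) (Finset.mem_univ _) A a1 a2 a3 fun _ => rfl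
  obtain ⟨c, hc0, hc⟩ := exists_chain _ (T₀, L₀) hstep
  have hM : ∀ k, (c k).2 < (c (k + 1)).2 := fun k => by
    obtain ⟨p, h1, h2, -⟩ := (hc k).2.2.1
    omega
  have hS : StrictMono fun k => (c k).2 := strictMono_nat_of_lt_succ hM
  obtain ⟨D, hD⟩ := fusion_limit (fun k => (c k).1) (fun k => (c k).2) hM (fun k => (hc k).1)
    (fun k => (hc k).2.1.mono (hM k).le) fun k => by
      obtain ⟨p, h1, h2⟩ := (hc k).2.2.1
      exact ⟨p, (hS.id_le k).trans h1, h2⟩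
  have d1 : Le D T₀ := by simpa [hc0] using (hD 0).1
  have d2 : Agr D T₀ (L₀ + 1) := by
    have h1 := ((hD 1).2.trans (hc 0).2.1).mono (hM 0)
    simpa [hc0] using h1
  refine ⟨D, ⟨d1, d2⟩, fun A hA L l1 l2 => ?_⟩
  have hk : ∃ k, L < (c (k + 1)).2 := ⟨L, hS.id_le (L + 1)⟩
  have k1 := Nat.find_spec hk
  have k2 : (c (Nat.find hk)).2 ≤ L := by
    rcases e : Nat.find hk with _ | k
    · simpa [hc0] using l1
    · exact not_lt.1 (Nat.find_min hk (by omega : k < Nat.find hk))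
  exact mono _ _ _ (cb_mono _ _ (hD _).1)
    ((hc _).2.2.2 L l1 k2 k1 A (cb_mono _ _ d1 hA) (hA.1.trans (hD _).1) l2)

end Pool.Agent.Lib.MP_2823fe_lc
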