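import Mathlib

/-! The equivalence relation generated by an analytic relation is induced by an analytic ideal. -/

set_option autoImplicit false

namespace Pool.Agent.Lib.MP_2823fe_lc

open MeasureTheory

/-- A sequence of open sets that separates two disjoint finite sets infinitely often. -/
theorem ideal_enum (X : Type) [TopologicalSpace X] [SecondCountableTopology X] [T1Space X] :
    ∃ U : ℕ → Set X, (∀ n, IsOpen (U n)) ∧ ∀ S T : Set X, S.Finite → T.Finite → Disjoint S T →
      {n | S ⊆ U n ∧ U n ⊆ Tᶜ}.Infinite := by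
  have hB := TopologicalSpace.isBasis_countableBasis X
  have := (Set.countable_ofPred_finite_subset
    (TopologicalSpace.countable_countableBasis X)).to_subtype
  have : Nonempty {t : Set (Set X) | t.Finite ∧ t ⊆ TopologicalSpace.countableBasis X} :=
    ⟨⟨∅, Set.finite_empty, Set.empty_subset _⟩⟩
  obtain ⟨e, he⟩ := exists_surjective_nat
    {t : Set (Set X) | t.Finite ∧ t ⊆ TopologicalSpace.countableBasis X}
  refine ⟨fun n => ⋃₀ (e (Nat.unpair n).1).1,
    fun n => isOpen_sUnion fun t ht => hB.isOpen ((e _).2.2 ht), fun S T hS hT hd => ?_⟩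
  choose! b b1 b2 b3 using fun w (hw : w ∈ S) => hB.exists_subset_of_mem_open
    (show w ∈ Tᶜ from Set.disjoint_left.1 hd hw) hT.isClosed.isOpen_compl
  obtain ⟨m, hm⟩ := he ⟨b '' S, hS.image b, Set.image_subset_iff.2 b1⟩
  refine Set.infinite_of_injective_forall_mem (f := Nat.pair m)
    (fun i j h => (Nat.pair_eq_pair.1 h).2) fun j => ?_
  simp only [Set.mem_ofPred_eq, Nat.unpair_pair, hm]
  exact ⟨fun w hw => ⟨b w, ⟨w, hw, rfl⟩, b2 w hw⟩,
    Set.sUnion_subset fun t ⟨w, hw, e⟩ => e ▸ b3 w hw⟩

theorem exists_ideal {X : Type} [TopologicalSpace X] [PolishSpace X] [MeasurableSpace X]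
    [BorelSpace X] (R : X → X → Prop) (hA : AnalyticSet {p : X × X | R p.1 p.2}) :
    ∃ (c : X → ℕ → Bool) (J : Set ℕ → Prop), Measurable c ∧ (∀ s t, s ⊆ t → J t → J s) ∧
      (∀ s t, J s → J t → J (s ∪ t)) ∧ (∀ s : Set ℕ, s.Finite → J s) ∧
      AnalyticSet {u : ℕ → Bool | J {n | u n = true}} ∧
      (∀ x y, R x y → J {n | c x n ≠ c y n}) ∧
      ∀ x y, J {n | c x n ≠ c y n} → Relation.EqvGen R x y := by
  classical
  have hR := Relation.EqvGen.is_equivalence R
  obtain ⟨U, hU, hsep⟩ := ideal_enum X
  have hc : ∀ n, Measurable fun x => decide (x ∈ U n) := fun n =>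
    measurable_to_bool (by
      have e : (fun x => decide (x ∈ U n)) ⁻¹' {true} = U n := by
        ext x
        simp
      rw [e]
      exact (hU n).measurableSet)
  refine ⟨fun x n => decide (x ∈ U n), fun s => ∃ (k : ℕ) (z : Fin k → X × X),
      (∀ j, R (z j).1 (z j).2) ∧
        {n | n ∈ s ∧ ∀ j, decide ((z j).1 ∈ U n) = decide ((z j).2 ∈ U n)}.Finite,
    measurable_pi_lambda _ hc, ?_, ?_, ?_, ?_, fun x y h => ?_, fun x y => ?_⟩
  · rintro s t hst ⟨k, z, h1, h2⟩
    exact ⟨k, z, h1, h2.subset fun n hn => ⟨hst hn.1, hn.2⟩⟩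
  · rintro s t ⟨k, z, h1, h2⟩ ⟨k', z', h1', h2'⟩
    refine ⟨k + k', Fin.append z z', fun j => ?_, (h2.union h2').subset ?_⟩
    · refine Fin.addCases (fun i => ?_) (fun i => ?_) j
      · rw [Fin.append_left]
        exact h1 i
      · rw [Fin.append_right]
        exact h1' i
    · rintro n ⟨hn | hn, h⟩
      · exact Or.inl ⟨hn, fun i => by simpa only [Fin.append_left] using h (Fin.castAdd k' i)⟩
      · exact Or.inr ⟨hn, fun i => by simpa only [Fin.append_right] using h (Fin.natAdd k i)⟩
  · exact fun s hs => ⟨0, Fin.elim0, fun j => j.elim0, hs.subset fun n hn => hn.1⟩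
  · let A : ∀ k : ℕ, Option (Fin k) → Set ((ℕ → Bool) × (Fin k → X × X)) := fun k o =>
      o.elim {q | ∃ N, ∀ n, (q.1 n = true ∧
        ∀ j, decide ((q.2 j).1 ∈ U n) = decide ((q.2 j).2 ∈ U n)) → n ≤ N}
        fun j => (fun q => q.2 j) ⁻¹' {p : X × X | R p.1 p.2}
    have hA' : ∀ k o, AnalyticSet (A k o) := by
      intro k o
      have : PolishSpace ((ℕ → Bool) × (Fin k → X × X)) := {}
      rcases o with _ | j
      · refine MeasurableSet.analyticSet (measurableSet_setOfPred.2 (Measurable.exists fun N =>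
          Measurable.forall fun n => Measurable.imp (Measurable.and ?_
            (Measurable.forall fun j => ?_)) measurable_const))
        · exact ((measurable_pi_apply n).comp measurable_fst).eq measurable_const
        · have m : Measurable fun q : (ℕ → Bool) × (Fin k → X × X) => q.2 j :=
            (measurable_pi_apply j).comp measurable_snd
          exact ((hc n).comp m.fst).eq ((hc n).comp m.snd)
      · exact hA.preimage ((continuous_apply j).comp continuous_snd)
    have h := AnalyticSet.iUnion fun k =>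
      (AnalyticSet.iInter (hA' k)).image_of_continuous continuous_fst
    refine cast (congrArg AnalyticSet (Set.ext fun u => ?_)) h
    simp only [Set.mem_iUnion, Set.mem_image, Set.mem_iInter, Option.forall, Prod.exists,
      exists_and_right, exists_eq_right]
    refine exists_congr fun k => exists_congr fun z => and_comm.trans (and_congr Iff.rfl ?_)
    rw [Set.finite_iff_bddAbove]
    rfl
  · refine ⟨1, fun _ => (x, y), fun _ => h, Set.finite_empty.subset fun n hn => hn.1 (hn.2 0)⟩
  · rintro ⟨k, z, h1, h2⟩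
    by_contra hxy
    have hF : ({x, y} ∪ (Set.range (fun j => (z j).1) ∪ Set.range fun j => (z j).2) :
        Set X).Finite :=
      (Set.toFinite _).union ((Set.finite_range _).union (Set.finite_range _))
    refine hsep _ _ (hF.sep (Relation.EqvGen R x)) (hF.sep fun w => ¬ Relation.EqvGen R x w)
      (Set.disjoint_left.2 fun w h h' => h'.2 h.2) (h2.subset fun n hn => ?_)
    have key : ∀ w ∈ ({x, y} ∪ (Set.range (fun j => (z j).1) ∪ Set.range fun j => (z j).2) :
        Set X), w ∈ U n ↔ Relation.EqvGen R x w := fun w hw =>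
      ⟨fun h => by_contra fun h' => hn.2 h ⟨hw, h'⟩, fun h => hn.1 ⟨hw, h⟩⟩
    refine ⟨fun e => hxy ?_, fun j => ?_⟩
    · rw [← key y (by simp), ← decide_eq_decide.1 e, key x (by simp)]
      exact hR.refl x
    · rw [decide_eq_decide, key _ (by simp), key _ (by simp)]
      exact ⟨fun h => hR.trans h (.rel _ _ (h1 j)),
        fun h => hR.trans h (hR.symm (.rel _ _ (h1 j)))⟩

end Pool.Agent.Lib.MP_2823fe_lc
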