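import Mathlib

/-! The left-variable word lemma of Carlson and Simpson. -/

set_option autoImplicit false

namespace Pool.Agent.Lib.MP_2823fe_lc

open Filter

theorem exists_min_idem {M : Type} [Nonempty M] [Semigroup M] [TopologicalSpace M]
    [CompactSpace M] [T2Space M] (hc : ∀ r : M, Continuous (· * r)) :
    ∃ w : M, w * w = w ∧ ∀ y, ∃ z, z * (y * w) = w := by
  obtain ⟨N, hN⟩ : ∃ N, Minimal
      (· ∈ {N : Set M | IsClosed N ∧ N.Nonempty ∧ ∀ x, ∀ m ∈ N, x * m ∈ N}) N := by
    refine zorn_superset _ fun c hcs hc => ⟨⋂₀ c, ⟨isClosed_sInter fun t ht => (hcs ht).1, ?_,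
      fun x m hm t ht => (hcs ht).2.2 x m (hm t ht)⟩, fun s hs => Set.sInter_subset_of_mem hs⟩
    obtain rfl | hne := c.eq_empty_or_nonempty
    · simp
    · have := hne.coe_sort
      exact IsCompact.nonempty_sInter_of_directed_nonempty_isCompact_isClosed
        (IsChain.directedOn hc.symm) (fun U h => (hcs h).2.1) (fun U h => (hcs h).1.isCompact)
        fun U h => (hcs h).1
  obtain ⟨h1, h2, h3⟩ := hN.prop
  obtain ⟨w, hw, hww⟩ := exists_idempotent_in_compact_subsemigroup hc N h2 h1.isCompact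
    fun x _ y hy => h3 x y hy
  refine ⟨w, hww, fun y => ?_⟩
  have : Set.range (· * (y * w)) = N := hN.eq_of_subset
    ⟨(isCompact_range (hc _)).isClosed, Set.range_nonempty _, by
      rintro x _ ⟨z, rfl⟩
      exact ⟨x * z, mul_assoc _ _ _⟩⟩ (by
      rintro _ ⟨z, rfl⟩
      exact h3 _ _ (h3 _ _ hw))
  rw [← this] at hw
  exact hw

attribute [local instance] Ultrafilter.mul Ultrafilter.semigroup

theorem umap_mul {M N : Type} [Monoid M] [Monoid N] (f : M →* N) (U V : Ultrafilter M) :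
    (U * V).map f = U.map f * V.map f :=
  Ultrafilter.coe_inj.1 <| Filter.ext' fun p => by
    simp only [Ultrafilter.eventually_mul, Ultrafilter.coe_map, eventually_map, map_mul]

variable {Λ : Type}

/-- Substitution of a letter for the variable. -/
def sb (a : Λ) : FreeMonoid (Option Λ) →* FreeMonoid Λ := FreeMonoid.map (·.getD a)

theorem exists_large [Finite Λ] (χ : List Λ → Prop) : ∃ (c : Prop) (Q : Set (List Λ)),
    Q.Nonempty ∧ (∀ w ∈ Q, χ w ↔ c) ∧ ∀ F : Set (List Λ), F.Finite → F ⊆ Q →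
      ∃ x : List (Option Λ), ∀ w ∈ F, ∀ a, w ++ a :: x.map (·.getD a) ∈ Q := by
  obtain ⟨W, hW, hm⟩ := exists_min_idem (M := Ultrafilter (FreeMonoid Λ))
    Ultrafilter.continuous_mul_left
  let ι : FreeMonoid Λ →* FreeMonoid (Option Λ) := FreeMonoid.map some
  let lv : Set (FreeMonoid (Option Λ)) := {x | ∃ y, x = FreeMonoid.of none * y}
  obtain ⟨U, ⟨⟨y, hy⟩, hU⟩, hUU⟩ := exists_idempotent_in_compact_subsemigroup
    (M := Ultrafilter (FreeMonoid (Option Λ))) Ultrafilter.continuous_mul_left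
    (Set.range (· * W.map ι) ∩ {u | lv ∈ u})
    ⟨pure (FreeMonoid.of none) * W.map ι, ⟨_, rfl⟩,
      (Ultrafilter.eventually_mul _ _ (· ∈ lv)).2 (by simp [lv])⟩
    ((isCompact_range (Ultrafilter.continuous_mul_left _)).inter_right
      (ultrafilter_isClosed_basic lv)) (by
      rintro u ⟨-, hu⟩ _ ⟨⟨z, rfl⟩, -⟩
      refine ⟨⟨u * z, mul_assoc _ _ _⟩, (Ultrafilter.eventually_mul _ _ (· ∈ lv)).2 ?_⟩
      filter_upwards [hu]
      rintro _ ⟨s, rfl⟩
      exact .of_forall fun t => ⟨s * t, mul_assoc _ _ _⟩)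
  have h0 : ∀ a, (W.map ι).map (sb a) = W := fun a => by
    have : sb a ∘ ι = id := funext fun w => by
      change ((sb a).comp ι) w = w
      rw [show (sb a).comp ι = MonoidHom.id _ from FreeMonoid.hom_eq fun _ => rfl]
      rfl
    rw [Ultrafilter.map_map, this, Ultrafilter.map_id]
  have h1 : ∀ a, U.map (sb a) = y.map (sb a) * W := fun a => by
    rw [← hy, umap_mul, h0]
  have h2 : ∀ a, W * U.map (sb a) = W := fun a => by
    obtain ⟨z, hz⟩ := hm (y.map (sb a))
    rw [← h1] at hz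
    rw [← hz, mul_assoc, ← umap_mul, hUU]
  have h3 : ∀ a b, U.map (sb a) * U.map (sb b) = U.map (sb a) := fun a b => by
    rw [h1 a, mul_assoc, h2]
  obtain ⟨c, hc⟩ : ∃ c : Prop, ∀ᶠ w : FreeMonoid Λ in W, χ w.toList ↔ c := by
    rcases W.em fun w : FreeMonoid Λ => χ w.toList with h | h
    · exact ⟨True, h.mono fun _ h => iff_true_intro h⟩
    · exact ⟨False, h.mono fun _ h => iff_false_intro h⟩
  let Q : Set (FreeMonoid Λ) := {w | (χ w.toList ↔ c) ∧
    ∀ a, ∀ᶠ x in U.map (sb a), χ (w * x).toList ↔ c}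
  have h4 : ∀ᶠ w in W, w ∈ Q := hc.and (eventually_all.2 fun a =>
    (Ultrafilter.eventually_mul _ _ fun w : FreeMonoid Λ => χ w.toList ↔ c).1 ((h2 a).symm ▸ hc))
  have h5 : ∀ w ∈ Q, ∀ a, ∀ᶠ x in U, w * sb a x ∈ Q := fun w hw a => by
    have : ∀ᶠ x in U.map (sb a), w * x ∈ Q := (hw.2 a).and (eventually_all.2 fun b => by
      have := (Ultrafilter.eventually_mul _ _ fun x => χ (w * x).toList ↔ c).1
        ((h3 a b).symm ▸ hw.2 a)
      simpa only [mul_assoc] using this)
    exact this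
  refine ⟨c, Q, h4.exists, fun w hw => hw.1, fun F hF hFQ => ?_⟩
  obtain ⟨x, ⟨s, rfl⟩, hx⟩ := ((show ∀ᶠ x in (U : Filter _), x ∈ lv from hU).and
    ((eventually_all_finite hF).2 fun w hw => eventually_all.2 (h5 w (hFQ hw)))).exists
  exact ⟨s.toList, fun w hw a => hx w hw a⟩

theorem word_lemma [Finite Λ] (χ : List Λ → Prop) : ∃ D : ℕ → Λ ⊕ ℕ,
    (∀ i j, D i = .inr j → j ≤ i ∧ D j = .inr j) ∧ (∀ n, ∃ j, n ≤ j ∧ D j = .inr j) ∧
    ∃ c : Prop, ∀ j, D j = .inr j → ∀ a : ℕ → Λ,
      χ ((List.range j).map fun i => (D i).elim id a) ↔ c := by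
  obtain ⟨c, Q, ⟨w₀, hw₀⟩, hQ, hs⟩ := exists_large χ
  have step : ∀ l : List (Λ ⊕ ℕ), ∃ x : List (Option Λ),
      (∀ a : ℕ → Λ, l.map (Sum.elim id a) ∈ Q) → ∀ a : ℕ → Λ, (l ++ Sum.inr l.length ::
        x.map fun o : Option Λ => o.elim (Sum.inr l.length) Sum.inl).map (Sum.elim id a) ∈ Q := fun l => by
    by_cases h : ∀ a : ℕ → Λ, l.map (Sum.elim id a) ∈ Q
    · obtain ⟨x, hx⟩ := hs (Set.range fun a : ℕ → Λ => l.map (Sum.elim id a))
        ((List.finite_length_eq Λ l.length).subset (by rintro _ ⟨a, rfl⟩; simp))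
        (by rintro _ ⟨a, rfl⟩; exact h a)
      refine ⟨x, fun _ a => ?_⟩
      have := hx _ ⟨a, rfl⟩ (a l.length)
      rw [List.map_append, List.map_cons, List.map_map]
      refine (congrArg (fun z => _ ++ _ :: z ∈ Q) (List.map_congr_left fun o _ => ?_)).mp this
      cases o <;> rfl
    · exact ⟨[], fun k => (h k).elim⟩
  choose x hx using step
  let l : ℕ → List (Λ ⊕ ℕ) := fun n => Nat.rec (w₀.map .inl)
    (fun _ l => l ++ Sum.inr l.length ::
      (x l).map fun o : Option Λ => o.elim (Sum.inr l.length) Sum.inl) n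
  have l1 : ∀ n, l (n + 1) = l n ++ Sum.inr (l n).length :: (x (l n)).map
    fun o : Option Λ => o.elim (Sum.inr (l n).length) Sum.inl := fun _ => rfl
  have l2 : ∀ n a, (l n).map (Sum.elim id a) ∈ Q := fun n => by
    induction n with
    | zero => exact fun a => by simpa [l, List.map_map] using hw₀
    | succ n ih => exact hx _ ih
  have l3 : StrictMono fun n => (l n).length := strictMono_nat_of_lt_succ fun n => by simp [l1]
  have l4 : ∀ n m, n ≤ m → ∀ i < (l n).length, (l m)[i]? = (l n)[i]? := fun n m h i hi => by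
    induction m, h using Nat.le_induction with
    | base => rfl
    | succ m h ih => rw [l1, List.getElem?_append_left (hi.trans_le (l3.monotone h)), ih]
  have l5 : ∀ i, i < (l (i + 1)).length := fun i => (Nat.lt_succ_self i).trans_le (l3.id_le _)
  let D : ℕ → Λ ⊕ ℕ := fun i => (l (i + 1))[i]'(l5 i)
  have d1 : ∀ n i, i < (l n).length → (l n)[i]? = some (D i) := fun n i hi => by
    rw [← List.getElem?_eq_getElem (l5 i), ← l4 _ _ (le_max_left n (i + 1)) i hi,
      l4 _ _ (le_max_right n (i + 1)) i (l5 i)]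
  have d2 : ∀ n, D (l n).length = .inr (l n).length := fun n => by
    have := d1 (n + 1) _ (l3 n.lt_succ_self)
    rw [l1, List.getElem?_append_right le_rfl, Nat.sub_self, List.getElem?_cons_zero] at this
    exact (Option.some.inj this).symm
  have d3 : ∀ n i j, (l n)[i]? = some (.inr j) → j ≤ i ∧ ∃ m, j = (l m).length := by
    intro n i j
    induction n with
    | zero =>
      intro h
      simpa [l] using List.mem_of_getElem? h
    | succ n ih =>
      intro h
      rw [l1] at h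
      by_cases hi : i < (l n).length
      · exact ih (List.getElem?_append_left hi ▸ h)
      · rw [List.getElem?_append_right (not_lt.1 hi)] at h
        have : j = (l n).length := by
          rcases List.mem_cons.1 (List.mem_of_getElem? h) with e | e
          · exact Sum.inr.inj e
          · obtain ⟨o, -, e⟩ := List.mem_map.1 e
            cases o
            · exact (Sum.inr.inj e).symm
            · cases e
        exact ⟨this ▸ not_lt.1 hi, n, this⟩
  refine ⟨D, fun i j h => ?_, fun n => ⟨_, l3.id_le n, d2 n⟩, c, fun j h a => ?_⟩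
  · obtain ⟨h1, m, rfl⟩ := d3 (i + 1) i j (h ▸ d1 (i + 1) i (l5 i))
    exact ⟨h1, d2 m⟩
  · obtain ⟨-, m, rfl⟩ := d3 (j + 1) j j (h ▸ d1 (j + 1) j (l5 j))
    refine (iff_of_eq (congrArg χ ?_)).trans (hQ _ (l2 m a))
    refine List.ext_getElem? fun i => ?_
    by_cases hi : i < (l m).length
    · rw [List.getElem?_map, List.getElem?_map, d1 m i hi, List.getElem?_range hi]
      rfl
    · simp [hi]

end Pool.Agent.Lib.MP_2823fe_lc
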