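import Mathlib
import Pool.Agent.Lib.MP_2823fe_lc.U.Word
import Pool.Agent.Lib.MP_2823fe_lc.U.Fuse

/-! The pigeonhole principle for one-step extensions. -/

set_option autoImplicit false

namespace Pool.Agent.Lib.MP_2823fe_lc

/-- `L'` is the next fixed point of `A` after `L`. -/
def Nx (A : Ret) (L L' : ℕ) : Prop := L < L' ∧ A.f L' = L' ∧ ∀ m, L < m → m < L' → A.f m ≠ m

theorem exists_enum (B : Ret) (L : ℕ) : ∃ e ι : ℕ → ℕ, StrictMono e ∧
    (∀ i, L < e i ∧ B.f (e i) = e i) ∧ (∀ i, ι (e i) = i) ∧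
    ∀ v, L < v → B.f v = v → e (ι v) = v := by
  classical
  have h : {v | L < v ∧ B.f v = v}.Infinite := Set.infinite_of_forall_exists_gt fun n => by
    obtain ⟨p, h1, h2⟩ := B.inf (max n L + 1)
    exact ⟨p, ⟨by omega, h2⟩, by omega⟩
  exact ⟨Nat.nth _, Nat.count _, Nat.nth_strictMono h, Nat.nth_mem_of_infinite h,
    Nat.count_nth_of_infinite h, fun v h1 h2 => Nat.nth_count ⟨h1, h2⟩⟩

theorem exists_sub (B : Ret) (L : ℕ) {e ι : ℕ → ℕ} (he : StrictMono e)
    (h1 : ∀ i, L < e i ∧ B.f (e i) = e i) (h2 : ∀ i, ι (e i) = i)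
    (h3 : ∀ v, L < v → B.f v = v → e (ι v) = v) (D : ℕ → Fin (L + 1) ⊕ ℕ)
    (d1 : ∀ i j, D i = .inr j → j ≤ i ∧ D j = .inr j) (d2 : ∀ n, ∃ j, n ≤ j ∧ D j = .inr j) :
    ∃ A ∈ Cb B L B, ∀ i, A.f (e i) = (D i).elim (B.f ·.1) e := by
  let g : ℕ → ℕ := fun m => if B.f m ≤ L then B.f m else (D (ι (B.f m))).elim (B.f ·.1) e
  have g1 : ∀ m, B.f m ≤ L → g m = B.f m := fun m k => if_pos k
  have g2 : ∀ i, g (e i) = (D i).elim (B.f ·.1) e := fun i => by
    simp only [g, (h1 i).2, h2, if_neg (h1 i).1.not_ge]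
  have g3 : ∀ m, g (B.f m) = g m := fun m => by simp only [g, B.idem]
  have g4 : ∀ m, B.f m ≤ L ∨ ∃ i, B.f m = e i := fun m =>
    (le_or_gt _ _).imp_right fun k => ⟨_, (h3 _ k (B.idem m)).symm⟩
  have g5 : ∀ v : Fin (L + 1), B.f v ≤ L := fun v => (B.le v).trans (Nat.lt_succ_iff.1 v.2)
  refine ⟨⟨g, fun m => ?_, fun m => ?_, fun n => ?_⟩,
    ⟨g3, fun m hm => g1 m ((B.le m).trans (Nat.lt_succ_iff.1 hm))⟩, g2⟩
  · rcases g4 m with k | ⟨i, k⟩
    · exact g1 m k ▸ B.le m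
    · refine le_trans ?_ (k ▸ B.le m)
      rw [← g3, k, g2]
      rcases c : D i with v | j
      · exact (g5 v).trans (h1 i).1.le
      · exact he.monotone (d1 i j c).1
  · rcases g4 m with k | ⟨i, k⟩
    · rw [g1 m k, g3, g1 m k]
    · rw [← g3 m, k, g2]
      rcases c : D i with v | j
      · exact (g3 v).trans (g1 v (g5 v))
      · exact (g2 j).trans (by rw [(d1 i j c).2])
  · obtain ⟨j, k1, k2⟩ := d2 n
    exact ⟨e j, k1.trans (he.id_le j), (g2 j).trans (by rw [k2]; rfl)⟩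

theorem pigeon (B : Ret) (L : ℕ) (χ : Ret → ℕ → Prop)
    (hχ : ∀ A A' L', Agr A A' (L' + 1) → χ A L' → χ A' L') :
    ∃ D ∈ Cb B L B, ∃ c : Prop, ∀ A ∈ Cb B L D, ∀ L', Nx A L L' → (χ A L' ↔ c) := by
  obtain ⟨e, ι, he, h1, h2, h3⟩ := exists_enum B L
  have hw : ∀ w : List (Fin (L + 1)), ∃ A ∈ Cb B L B, ∀ i, A.f (e i) =
      (w[i]?.elim (Sum.inr i) Sum.inl : Fin (L + 1) ⊕ ℕ).elim (B.f ·.1) e := fun w => by
    refine exists_sub B L he h1 h2 h3 (fun i => w[i]?.elim (Sum.inr i) Sum.inl)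
      (fun i j k => ?_) fun n => ⟨max n w.length, le_max_left _ _, ?_⟩
    · rcases c : w[i]? with _ | v
      · rw [c] at k
        obtain rfl : i = j := Sum.inr.inj k
        exact ⟨le_rfl, by rw [c]; rfl⟩
      · rw [c] at k
        cases k
    · rw [List.getElem?_eq_none (le_max_right _ _)]
      rfl
  choose W hW1 hW2 using hw
  obtain ⟨D₀, d1, d2, c, hc⟩ := word_lemma fun w => χ (W w) (e w.length)
  obtain ⟨D, hD, k⟩ := exists_sub B L he h1 h2 h3 D₀ d1 d2
  refine ⟨D, hD, c, fun A hA L' hL => ?_⟩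
  have hAB : Le A B := hA.1.trans hD.1
  obtain ⟨j, rfl⟩ : ∃ j, e j = L' := ⟨_, h3 _ hL.1 (hAB.fix hL.2.1)⟩
  have hj : D₀ j = .inr j := by
    have := (k j).symm.trans (hA.1.fix hL.2.1)
    rcases c : D₀ j with v | i
    · rw [c] at this
      have h4 : B.f v = e j := this
      have h5 := B.le v
      have h6 := v.2
      have h7 := hL.1
      omega
    · rw [c] at this
      rw [he.injective this]
  let a : ℕ → Fin (L + 1) := fun i => ⟨min (A.f (e i)) L, by omega⟩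
  have hc' := hc j hj a
  generalize hw : (List.range j).map (fun i => (D₀ i).elim id a) = w at hc'
  have hl : w.length = j := by simp [← hw]
  have key : Agr A (W w) (e j + 1) := by
    intro m hm
    rw [← hAB m, ← (hW1 w).1 m]
    have b1 := B.le m
    rcases le_or_gt (B.f m) L with c | c
    · rw [hA.2 _ (by omega), (hW1 w).2 _ (by omega)]
    obtain ⟨i, hi⟩ : ∃ i, e i = B.f m := ⟨_, h3 _ c (B.idem m)⟩
    rw [← hi, hW2]
    rcases (he.le_iff_le.1 (by omega : e i ≤ e j)).eq_or_lt with rfl | hij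
    · rw [List.getElem?_eq_none hl.le]
      exact hL.2.1
    rw [← hw, List.getElem?_map, List.getElem?_range hij, ← hA.1, k]
    rcases c : D₀ i with v | i'
    · have h5 := B.le v
      have h6 := v.2
      simp only [Option.map_some, c, Sum.elim_inl, id, Option.elim_some]
      rw [hA.2 _ (by omega), B.idem]
    · have h5 : e i' < e j := he ((d1 i i' c).1.trans_lt hij)
      have h6 := A.le (e i')
      have h7 : A.f (e i') ≤ L := by
        by_contra h8
        exact hL.2.2 _ (not_le.1 h8) (by omega) (A.idem _)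
      simp only [Option.map_some, c, Sum.elim_inl, Sum.elim_inr, Option.elim_some, a,
        min_eq_left h7]
      exact (hAB.fix (A.idem _)).symm
  rw [hl] at hc'
  exact Iff.trans ⟨hχ _ _ _ key, hχ _ _ _ key.symm⟩ hc'

end Pool.Agent.Lib.MP_2823fe_lc
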