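import Mathlib
import Pool.Agent.Lib.MP_2823fe_lc.U.Pigeon
import Pool.Agent.Lib.MP_2823fe_lc.Bridge

/-! Borel sets of partitions are Ramsey (Carlson and Simpson). -/

set_option autoImplicit false

namespace Pool.Agent.Lib.MP_2823fe_lc

theorem dich (X : Set Ret) (T₀ : Ret) (L₀ : ℕ) (h₀ : T₀.f L₀ = L₀) :
    ∃ D ∈ Cb T₀ L₀ T₀, Cb T₀ L₀ D ⊆ X ∨
      ∀ A ∈ Cb T₀ L₀ D, ∀ L, L₀ ≤ L → A.f L = L → ¬ Cb A L A ⊆ X := by
  classical
  obtain ⟨B, hB, b⟩ := fuse (fun L S => S ⊆ X ∨ ∀ A ∈ S, ¬ Cb A L A ⊆ X)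
    (fun L S S' h k => k.imp h.trans fun k A hA => k A (h hA)) T₀ L₀ fun T _ L _ _ => by
      by_cases h : ∃ A ∈ Cb T L T, Cb A L A ⊆ X
      · obtain ⟨A, h1, h2⟩ := h
        exact ⟨A, h1, .inl (cb_congr h1.2 A ▸ h2)⟩
      · exact ⟨T, cb_self (Le.rfl _) _, .inr fun A h1 h2 => h ⟨A, h1, h2⟩⟩
  by_cases acc : Cb T₀ L₀ B ⊆ X
  · exact ⟨B, hB, .inl acc⟩
  rw [← cb_congr hB.2] at acc b
  obtain ⟨D, hD, d⟩ := fuse (fun L S => ∀ A ∈ S, ¬ Cb A L B ⊆ X → ∀ L', Nx A L L' →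
      ¬ Cb A L' B ⊆ X) (fun L S S' h k A hA => k A (h hA)) B L₀ fun T hT L l1 l2 => by
    obtain ⟨D, hD, c, hc⟩ := pigeon T L (fun A L' => Cb A L' B ⊆ X)
      fun A A' L' h k => cb_congr h B ▸ k
    refine ⟨D, hD, fun A hA h L' hL k => ?_⟩
    rw [cb_congr hA.2] at h
    refine (b T hT L l1 l2).resolve_left h D (cb_mono _ _ hT.1 hD) ?_
    rw [cb_congr hD.2]
    intro A' hA'
    have hp := Nat.find_spec (A'.inf (L + 1))
    exact (hc A' hA' _ ⟨hp.1, hp.2, fun m m1 m2 m3 => Nat.find_min _ m2 ⟨m1, m3⟩⟩).2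
      ((hc A hA L' hL).1 k) (cb_self ((hA'.1.trans hD.1).trans hT.1) _)
  refine ⟨D, ⟨hD.1.trans hB.1, hD.2.trans hB.2⟩, .inr ?_⟩
  rw [← cb_congr hB.2]
  intro A hA L l1 l2
  have hAB := cb_mono _ _ hD.1 hA
  refine (b A hAB L l1 l2).resolve_left ?_ A (cb_self hAB.1 _)
  induction L using Nat.strong_induction_on with
  | _ L ih =>
    rcases l1.eq_or_lt with rfl | l3
    · rwa [cb_congr hA.2]
    have a0 : A.f L₀ = L₀ := cb_fix hA (cb_fix hB h₀)
    have l4 : L₀ ≤ L - 1 := by omega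
    have g1 : A.f _ = _ := Nat.findGreatest_spec (P := fun m => A.f m = m) l4 a0
    have g2 := Nat.le_findGreatest (P := fun m => A.f m = m) l4 a0
    have g3 := Nat.findGreatest_le (P := fun m => A.f m = m) (L - 1)
    exact d A hA _ g2 g1 A (cb_self hA.1 _) (ih _ (by omega) g2 g1) L ⟨by omega, l2,
      fun m m1 m2 => Nat.findGreatest_is_greatest (P := fun m => A.f m = m) m1 (by omega)⟩

/-- The Ramsey property. -/
def Rm (X : Set Ret) : Prop :=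
  ∀ T L, T.f L = L → ∃ D ∈ Cb T L T, Cb T L D ⊆ X ∨ Cb T L D ⊆ Xᶜ

theorem Rm.compl {X : Set Ret} (h : Rm X) : Rm Xᶜ := fun T L k => by
  obtain ⟨D, h1, h2⟩ := h T L k
  exact ⟨D, h1, by rw [compl_compl]; exact h2.symm⟩

theorem rm_open {X : Set Ret} (h : ∀ A ∈ X, ∃ n, ∀ A', Agr A' A n → A' ∈ X) : Rm X := by
  intro T L k
  obtain ⟨D, h1, h2⟩ := dich X T L k
  refine ⟨D, h1, h2.imp_right fun h2 A hA hX => ?_⟩
  obtain ⟨n, hn⟩ := h A hX
  obtain ⟨p, p1, p2⟩ := A.inf (max n L)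
  exact h2 A hA p (by omega) p2 fun A' hA' => hn A' (hA'.2.mono (by omega))

theorem rm_iUnion {X : ℕ → Set Ret} (h : ∀ i, Rm (X i)) : Rm (⋃ i, X i) := by
  intro T₀ L₀ k
  obtain ⟨B, hB, b | b⟩ := dich (⋃ i, X i) T₀ L₀ k
  · exact ⟨B, hB, .inl b⟩
  rw [← cb_congr hB.2] at b
  obtain ⟨D, hD, d⟩ := fuse (fun L S => ∀ i < L, S ⊆ (X i)ᶜ)
      (fun L S S' h k i hi => h.trans (k i hi)) B L₀ fun T hT L l1 l2 => by
    suffices ∀ n, ∃ D ∈ Cb T L T, ∀ i < n, Cb T L D ⊆ (X i)ᶜ from this L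
    intro n
    induction n with
    | zero => exact ⟨T, cb_self (Le.rfl _) _, by simp⟩
    | succ n ih =>
      obtain ⟨D, hD, d⟩ := ih
      obtain ⟨E, hE, e⟩ := h n D L (cb_fix hD l2)
      have hE' : E ∈ Cb T L T := ⟨hE.1.trans hD.1, hE.2.trans hD.2⟩
      refine ⟨E, hE', fun i hi => ?_⟩
      rcases Nat.lt_succ_iff_lt_or_eq.1 hi with hi | rfl
      · exact (cb_mono _ _ hE.1).trans (d i hi)
      · rw [cb_congr hD.2] at e
        refine e.resolve_left fun e => b E ⟨hE'.1.trans hT.1,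
          (hE'.2.mono (by omega)).trans hT.2⟩ L l1 (cb_fix hE' l2) ?_
        rw [cb_congr hE'.2]
        exact e.trans (Set.subset_iUnion X i)
  refine ⟨D, ⟨hD.1.trans hB.1, hD.2.trans hB.2⟩, .inr fun A hA hX => ?_⟩
  rw [← cb_congr hB.2] at hA
  obtain ⟨i, hi⟩ := Set.mem_iUnion.1 hX
  obtain ⟨p, p1, p2⟩ := A.inf (max (i + 1) L₀)
  exact d A hA p (by omega) p2 i (by omega) (cb_self hA.1 _) hi

theorem mu_agr {A A' : Einf} {n : ℕ} (h : ∀ m ≤ mu A n, rho A' m = rho A m) :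
    mu A' n = mu A n := by
  classical
  have h1 : Nat.count (fun m => ∀ k, A'.1.r k m → m ≤ k) (mu A n) = n := by
    refine Eq.trans ?_ (Nat.count_nth_of_infinite (mins_infinite A) n)
    rw [Nat.count_eq_card_filter_range, Nat.count_eq_card_filter_range]
    refine congrArg _ (Finset.filter_congr fun m hm => ?_)
    rw [min_iff, min_iff, h m (Finset.mem_range.1 hm).le]
  have h2 := Nat.nth_count (p := fun m => ∀ k, A'.1.r k m → m ≤ k)
    ((min_iff A' _).2 ((h _ le_rfl).trans (rho_mu A n)))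
  rwa [h1] at h2

theorem rm_borel {C : Set Einf} (hC : MeasurableSet C) : Rm (ofRet ⁻¹' C) := by
  refine MeasurableSet.induction_on_open (C := fun C _ => Rm (ofRet ⁻¹' C)) ?_
    (fun _ _ h => h.compl) (fun f _ _ h => ?_) C hC
  · intro U hU
    obtain ⟨V, hV, rfl⟩ := isOpen_induced_iff.1 hU
    refine rm_open fun A hA => ?_
    obtain ⟨I, u, h1, h2⟩ := isOpen_pi_iff.1 hV _ hA
    refine ⟨I.sup (fun a => max (mu (ofRet A) a.1) a.2) + 1, fun A' h => h2 fun a ha => ?_⟩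
    have h3 : max (mu (ofRet A) a.1) a.2 ≤ _ :=
      Finset.le_sup (f := fun a : ℕ × ℕ => max (mu (ofRet A) a.1) a.2) ha
    have h4 : ∀ m ≤ max (mu (ofRet A) a.1) a.2, rho (ofRet A') m = rho (ofRet A) m :=
      fun m hm => by rw [rho_ofRet, rho_ofRet, h m (by omega)]
    have : code (ofRet A') a = code (ofRet A) a := by
      simp only [code, rel_iff, mu_agr fun m hm => h4 m (hm.trans (le_max_left _ _)),
        h4 _ (le_max_left _ _), h4 _ (le_max_right _ _)]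
    exact this ▸ (h1 a ha).2
  · rw [Set.preimage_iUnion]
    exact rm_iUnion h

theorem ofRet_toRet (A : Einf) : ofRet (toRet A) = A :=
  Subtype.ext (Setoid.ext fun i j => (rel_iff A i j).symm)

theorem toRet_ofRet (B : Ret) : toRet (ofRet B) = B := by
  cases B
  simp only [toRet, Ret.mk.injEq]
  funext m
  exact rho_ofRet _ m

theorem mem_cube (T B A : Einf) (n : ℕ) :
    A ∈ cube (restr T n) B ↔ toRet A ∈ Cb (toRet T) (mu T n) (toRet B) := by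
  refine and_congr (le_iff A B) ⟨?_, fun h => ⟨n, ?_⟩⟩
  · rintro ⟨k, h⟩ m hm
    rw [restr_eq_iff] at h
    change rho A m = rho T m
    rcases Nat.lt_succ_iff_lt_or_eq.1 hm with c | rfl
    · exact h.2 m (h.1 ▸ c)
    · rw [rho_mu, ← h.1, rho_mu]
  · have := mu_agr (A' := A) (A := T) (n := n) fun m hm => h m (Nat.lt_succ_of_le hm)
    exact (restr_eq_iff _ _ _ _).2 ⟨this, fun m hm => h m (by omega)⟩

theorem exists_cube {C : Set Einf} (hm : MeasurableSet C) (hC : ¬ InI C) :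
    ∃ A n, cube (restr A n) A ⊆ C := by
  unfold InI at hC
  push Not at hC
  obtain ⟨s, A₀, ⟨T, hT, n, rfl⟩, hC⟩ := hC
  obtain ⟨D, hD, d⟩ := rm_borel hm (toRet T) (mu T n) (rho_mu T n)
  have h1 : ofRet D ∈ cube (restr T n) T := by rwa [mem_cube, toRet_ofRet]
  have h2 : ∀ A ∈ cube (restr T n) (ofRet D), toRet A ∈ Cb (toRet T) (mu T n) D :=
    fun A hA => by rwa [mem_cube, toRet_ofRet] at hA
  rcases d with d | d
  · obtain ⟨k, hk⟩ := h1.2
    exact ⟨ofRet D, k, fun A hA => ofRet_toRet A ▸ d (h2 A (hk ▸ hA))⟩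
  · obtain ⟨A, a1, a2⟩ := hC _ ⟨fun i j k => h1.1 i j (hT i j k), h1.2⟩
    exact (d (h2 A a1) (show ofRet (toRet A) ∈ C from (ofRet_toRet A).symm ▸ a2)).elim

end Pool.Agent.Lib.MP_2823fe_lc
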