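import Mathlib

/-! A complete analytic equivalence relation. -/

set_option autoImplicit false

namespace Pool.Agent.Lib.MP_2823fe_lc

open MeasureTheory

theorem univ_param (Z : Type) [TopologicalSpace Z] [PolishSpace Z] :
    ∃ U : Set ((ℕ → Bool) × Z), AnalyticSet U ∧
      ∀ S : Set Z, AnalyticSet S → ∃ a, ∀ z, (a, z) ∈ U ↔ z ∈ S := by
  classical
  have : PolishSpace ((ℕ → Bool) × (ℕ → ℕ) × Z) := {}
  obtain ⟨b, hb⟩ := TopologicalSpace.exists_seq_basis ((ℕ → ℕ) × Z)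
  refine ⟨(fun q : (ℕ → Bool) × (ℕ → ℕ) × Z => (q.1, q.2.2)) ''
    ⋂ n, {q | q.1 n = false} ∪ Prod.snd ⁻¹' (b n)ᶜ, ?_, fun S hS => ?_⟩
  · refine AnalyticSet.image_of_continuous (IsClosed.analyticSet (isClosed_iInter fun n =>
      IsClosed.union (isClosed_eq (by fun_prop) continuous_const)
        ((hb.isOpen ⟨n, rfl⟩).isClosed_compl.preimage continuous_snd))) (by fun_prop)
  · obtain ⟨G, hG, e⟩ : ∃ G : Set ((ℕ → ℕ) × Z), IsClosed G ∧ ∀ z, z ∈ S ↔ ∃ w, (w, z) ∈ G := by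
      rw [AnalyticSet] at hS
      rcases hS with rfl | ⟨g, hg, rfl⟩
      · exact ⟨∅, isClosed_empty, by simp⟩
      · exact ⟨{q | g q.1 = q.2}, isClosed_eq (by fun_prop) continuous_snd, fun z => Iff.rfl⟩
    have key : ∀ q, (∀ n, decide (b n ⊆ Gᶜ) = false ∨ q ∈ (b n)ᶜ) ↔ q ∈ G := fun q => by
      refine ⟨fun h => by_contra fun k => ?_, fun h n => ?_⟩
      · obtain ⟨_, ⟨n, rfl⟩, h1, h2⟩ := hb.exists_subset_of_mem_open k hG.isOpen_compl
        exact (h n).elim (fun h => by simp [h2] at h) fun h => h h1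
      · by_cases k : b n ⊆ Gᶜ
        · exact .inr fun h1 => k h1 h
        · exact .inl (by simp [k])
    refine ⟨fun n => decide (b n ⊆ Gᶜ), fun z => Iff.trans ⟨?_, ?_⟩ (e z).symm⟩
    · rintro ⟨⟨a, w, z'⟩, h, k⟩
      obtain ⟨rfl, rfl⟩ := Prod.mk.inj k
      exact ⟨w, (key _).1 (Set.mem_iInter.1 h)⟩
    · rintro ⟨w, h⟩
      exact ⟨(_, w, z), Set.mem_iInter.2 ((key _).2 h), rfl⟩

theorem exists_complete : ∃ S : (ℕ → Bool) × (ℕ → Bool) → (ℕ → Bool) × (ℕ → Bool) → Prop,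
    AnalyticSet {p : ((ℕ → Bool) × (ℕ → Bool)) × (ℕ → Bool) × (ℕ → Bool) | S p.1 p.2} ∧
    ∀ (X : Type) [TopologicalSpace X] [PolishSpace X] [MeasurableSpace X] [BorelSpace X]
      (R : X → X → Prop), Equivalence R → AnalyticSet {p : X × X | R p.1 p.2} →
      ∃ f : X → (ℕ → Bool) × (ℕ → Bool), Measurable f ∧
        ∀ x y, R x y ↔ Relation.EqvGen S (f x) (f y) := by
  have : PolishSpace ((ℕ → Bool) × (ℕ → Bool)) := {}
  obtain ⟨U, hU, h⟩ := univ_param ((ℕ → Bool) × (ℕ → Bool))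
  refine ⟨fun p q => p.1 = q.1 ∧ (p.1, p.2, q.2) ∈ U, ?_, fun X _ _ _ _ R hR hA => ?_⟩
  · refine cast (congrArg AnalyticSet (Set.ext ?_)) (hU.image_of_continuous
      (f := fun u => ((u.1, u.2.1), (u.1, u.2.2))) (by fun_prop))
    rintro ⟨⟨a, x⟩, a', y⟩
    exact ⟨by rintro ⟨u, h1, ⟨⟩⟩; exact ⟨rfl, h1⟩, by rintro ⟨⟨⟩, h1⟩; exact ⟨_, h1, rfl⟩⟩
  obtain ⟨f, hf, hi⟩ := MeasurableSpace.measurable_injection_nat_bool_of_countablySeparated X
  obtain ⟨a, ha⟩ := h (Prod.map f f '' {p | R p.1 p.2}) (by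
    rw [AnalyticSet] at hA
    rcases hA with e | ⟨g, hg, e⟩
    · rw [e, Set.image_empty]
      exact analyticSet_empty
    · rw [← e, ← Set.range_comp, ← Set.image_univ]
      exact MeasurableSet.univ.analyticSet_image ((hf.prodMap hf).comp hg.measurable))
  have h1 : ∀ p q : (ℕ → Bool) × (ℕ → Bool),
      Relation.EqvGen (fun p q => p.1 = q.1 ∧ (p.1, p.2, q.2) ∈ U) p q →
      ∀ x, (∃ y, p = (a, f y) ∧ R x y) ↔ ∃ y, q = (a, f y) ∧ R x y := by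
    intro p q k x
    induction k with
    | rel p q k =>
      have : p.1 = a → ∃ y z, p = (a, f y) ∧ q = (a, f z) ∧ R y z := fun e => by
        obtain ⟨⟨y, z⟩, k1, k2⟩ := (ha _).1 (e ▸ k.2)
        obtain ⟨k3, k4⟩ := Prod.mk.inj k2
        exact ⟨y, z, Prod.ext e k3.symm, Prod.ext (k.1 ▸ e) k4.symm, k1⟩
      constructor
      · rintro ⟨y, e, r⟩
        obtain ⟨y', z, e1, e2, r'⟩ := this (by rw [e])
        obtain rfl := hi (Prod.mk.inj (e.symm.trans e1)).2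
        exact ⟨z, e2, hR.trans r r'⟩
      · rintro ⟨z, e, r⟩
        obtain ⟨y, z', e1, e2, r'⟩ := this (by rw [k.1, e])
        obtain rfl := hi (Prod.mk.inj (e.symm.trans e2)).2
        exact ⟨y, e1, hR.trans r (hR.symm r')⟩
    | refl p => rfl
    | symm p q _ ih => exact ih.symm
    | trans p q r _ _ i1 i2 => exact i1.trans i2
  refine ⟨fun x => (a, f x), measurable_const.prodMk hf, fun x y =>
    ⟨fun r => .rel _ _ ⟨rfl, (ha _).2 ⟨(x, y), r, rfl⟩⟩, fun k => ?_⟩⟩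
  obtain ⟨z, e, r⟩ := (h1 _ _ k x).1 ⟨x, rfl, hR.refl x⟩
  rwa [hi (Prod.mk.inj e).2]

end Pool.Agent.Lib.MP_2823fe_lc
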