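import Mathlib
import Pool.Agent.Lib.MP_2823fe_lc.U.Ramsey
import Pool.Agent.Lib.MP_2823fe_lc.U.Code
import Pool.Agent.Lib.MP_2823fe_lc.U.Ideal
import Pool.Agent.Lib.MP_2823fe_lc.U.Univ

/-! An analytic equivalence relation that is complete on every positive Borel set. -/

set_option autoImplicit false

namespace Pool.Agent.Lib.MP_2823fe_lc

open MeasureTheory

theorem universal : ∃ E : Einf → Einf → Prop, Equivalence E ∧
    AnalyticSet {p : Einf × Einf | E p.1 p.2} ∧
    ∀ C : Set Einf, MeasurableSet C → ¬ InI C →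
      ∀ (X : Type) [TopologicalSpace X] [PolishSpace X] [MeasurableSpace X] [BorelSpace X]
        (R : X → X → Prop), Equivalence R → AnalyticSet {p : X × X | R p.1 p.2} →
        BorelRed R (fun x y : C => E x y) := by
  obtain ⟨S, hS, hc⟩ := exists_complete
  have : PolishSpace ((ℕ → Bool) × (ℕ → Bool)) := {}
  obtain ⟨c, J, j0, j1, j2, j3, j4, j5, j6⟩ := exists_ideal S hS
  have j7 : ∀ x y, Relation.EqvGen S x y → J {n | c x n ≠ c y n} := fun x y h => by
    induction h with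
    | rel x y h => exact j5 x y h
    | refl x => exact j3 _ (by simp)
    | symm x y _ h => exact j1 _ _ (fun _ k => k.symm) h
    | trans x y z _ _ h k =>
      exact j1 _ _ (fun n e => by_contra fun e' => e
        ((not_not.1 (not_or.1 e').1).trans (not_not.1 (not_or.1 e').2))) (j2 _ _ h k)
  refine ⟨fun A B => J (Dif A B), ⟨fun A => j3 _ (by simp [Dif]),
    fun h => j1 _ _ (fun _ e => Exists.imp (fun _ => Ne.symm) e) h,
    fun {A B D} h k => j1 _ _ ?_ (j2 _ _ h k)⟩,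
    analytic_dif J j4, fun C hm hC X _ _ _ _ R hR hA => ?_⟩
  · rintro n ⟨i, e⟩
    by_cases e' : code A (n, i) = code B (n, i)
    · exact .inr ⟨i, e' ▸ e⟩
    · exact .inl ⟨i, e'⟩
  obtain ⟨A, n₀, hA'⟩ := exists_cube hm hC
  obtain ⟨F, f1, f2, f3⟩ := exists_code A n₀
  obtain ⟨f, g1, g2⟩ := hc X R hR hA
  refine ⟨fun x => ⟨F (c (f x)), hA' (f2 _)⟩, (f1.comp (j0.comp g1)).subtype_mk, fun x y =>
    (g2 x y).trans ⟨fun h => ?_, fun h => j6 _ _ ?_⟩⟩
  · exact j1 _ _ (fun n e => (lt_or_ge n₀ n).imp (fun k => (f3 _ _ n k).1 e) id)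
      (j2 _ _ (j7 _ _ h) (j3 _ (Set.finite_Iic n₀)))
  · exact j1 _ _ (fun n e => (lt_or_ge n₀ n).imp (fun k => (f3 _ _ n k).2 e) id)
      (j2 _ _ h (j3 _ (Set.finite_Iic n₀)))

end Pool.Agent.Lib.MP_2823fe_lc
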